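import Pool.Agent.N522.DUB.Main

/-!
# MP_78bf89_ag: Q1 on a class closed under products, projective bundles and blow-ups
-/

open Pool.Agent.N522.DUB

/-- Let `InClass` consist of the varieties which are good (semisimple quantum cohomology and a full
exceptional collection) or have some `h^{p,q} ≠ 0` with `p ≠ q`.  The equivalence of Q1 holds on
this class, the class is closed under products, projective bundles and blow-ups with centre in the
class, and so the equivalence holds for everything generated from it by these operations. -/
theorem Pool.Agent.Results.MP_78bf89_ag.GeneratedClass.result :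
    ∀ T : Theory, HodgeFacts T → QuantumFacts T → DerivedFacts T →
      (∀ X : T.Var, InClass X → Q1 X) ∧
      (∀ X Y : T.Var, InClass X → InClass Y → InClass (T.prod X Y)) ∧
      (∀ (X : T.Var) (V : T.Bundle X), InClass X → InClass (T.proj X V)) ∧
      (∀ (X : T.Var) (Z : T.Centre X), InClass X → InClass (T.sub Z) → InClass (T.blow X Z)) ∧
      (∀ X : T.Var, Gen T InClass X → Q1 X) := by
  intro T hH hQ hD
  exact ⟨q1_of_inClass hQ hD, inClass_prod hH hQ hD, inClass_proj hH hQ hD,
    inClass_blow hH hQ hD, fun X h => q1_of_inClass hQ hD X (inClass_gen hH hQ hD X h)⟩
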